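import Pool.Agent.MP_d1780f_co.H86.Main

/-! A simplicial `d`-polytope without missing faces of dimension `≥ d - i + 1` is determined,
up to affine equivalence, by its space of affine `i`-stresses, for all `2 ≤ i ≤ d / 2`. -/

set_option linter.unusedSectionVars false

namespace Pool.Agent.Results.MP_d1780f_co.Reconstruction

open Module MvPolynomial Finset Pool.Agent.MP_d1780f_co.H86

universe u

variable {V : Type u} [Fintype V] [DecidableEq V] {d : ℕ}

/-- `σ` is the vertex set of a proper face (possibly empty) of the convex hull of the points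
`p v`: some linear functional is bounded by `c` on the points, with equality exactly on `σ`. -/
def IsFace (p : V → Fin d → ℝ) (σ : Finset V) : Prop :=
  σ ≠ univ ∧ ∃ (l : (Fin d → ℝ) →ₗ[ℝ] ℝ) (c : ℝ),
    (∀ v, l (p v) ≤ c) ∧ ∀ v, l (p v) = c ↔ v ∈ σ

/-- The points `p v` are the vertices of a simplicial `d`-polytope in `ℝ^d`: they affinely span
the space, each of them is a vertex, and every proper face is a simplex. -/
structure IsSimplicialPolytope (p : V → Fin d → ℝ) : Prop where
  span : affineSpan ℝ (Set.range p) = ⊤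
  vertex : ∀ v, IsFace p {v}
  simplex : ∀ σ, IsFace p σ → AffineIndependent ℝ fun v : σ => p v

/-- A missing face: not a face, but every proper subset is a face. -/
def IsMissingFace (p : V → Fin d → ℝ) (μ : Finset V) : Prop :=
  ¬ IsFace p μ ∧ ∀ τ, τ ⊂ μ → IsFace p τ

/-- The space of affine `i`-stresses: homogeneous polynomials of degree `i`, each of whose
monomials is supported on a face, killed by the `d + 1` differential operators. -/
def Stress (p : V → Fin d → ℝ) (i : ℕ) : Set (MvPolynomial V ℝ) :=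
  {u | u.IsHomogeneous i ∧ (∀ m ∈ u.support, IsFace p m.support) ∧
    ∑ v, pderiv v u = 0 ∧ ∀ k, ∑ v, p v k • pderiv v u = 0}

/-- values of affine functions at the points -/
noncomputable def Lam (p : V → Fin d → ℝ) : (ℝ × Dual ℝ (Fin d → ℝ)) →ₗ[ℝ] (V → ℝ) where
  toFun a v := a.1 - a.2 (p v)
  map_add' a b := by funext v; simp; ring
  map_smul' c a := by funext v; simp; ring

noncomputable def Ls (p : V → Fin d → ℝ) : Submodule ℝ (V → ℝ) := LinearMap.range (Lam p)

variable {p : V → Fin d → ℝ}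

omit [Fintype V] [DecidableEq V] in
lemma mem_Ls {z : V → ℝ} :
    z ∈ Ls p ↔ ∃ (c : ℝ) (l : (Fin d → ℝ) →ₗ[ℝ] ℝ), ∀ v, z v = c - l (p v) :=
  ⟨fun ⟨a, h⟩ => ⟨a.1, a.2, fun v => (congrFun h v).symm⟩,
    fun ⟨c, l, h⟩ => ⟨(c, l), funext fun v => (h v).symm⟩⟩

omit [Fintype V] [DecidableEq V] in
lemma one_mem_Ls : (1 : V → ℝ) ∈ Ls p := mem_Ls.2 ⟨1, 0, by simp⟩

omit [Fintype V] [DecidableEq V] in
lemma coord_mem_Ls (k : Fin d) : (fun v => p v k) ∈ Ls p :=
  mem_Ls.2 ⟨0, -LinearMap.proj k, by simp⟩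

omit [Fintype V] [DecidableEq V] in
lemma Lam_inj (h : affineSpan ℝ (Set.range p) = ⊤) : Function.Injective (Lam p) := by
  rw [← LinearMap.ker_eq_bot, LinearMap.ker_eq_bot']
  rintro ⟨c, l⟩ h0
  have h1 : ∀ x, l x = c := by
    intro x
    have hx : x ∈ affineSpan ℝ (Set.range p) := by rw [h]; trivial
    refine affineSpan_induction (p := fun x => l x = c) hx ?_ ?_
    · rintro _ ⟨v, rfl⟩
      have := congrFun h0 v
      simp only [Lam, LinearMap.coe_mk, AddHom.coe_mk, Pi.zero_apply] at this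
      linarith
    · intro a x y z hx hy hz
      simp [hx, hy, hz]
  have hc : c = 0 := by simpa using (h1 0).symm
  subst hc
  have : l = 0 := LinearMap.ext h1
  simp [this]

lemma isFace_of_zero {z : V → ℝ} (hz : z ∈ Ls p) (h0 : ∀ v, 0 ≤ z v) (hne : z ≠ 0)
    {σ : Finset V} (hσ : ∀ v, z v = 0 ↔ v ∈ σ) : IsFace p σ := by
  obtain ⟨c, l, h⟩ := mem_Ls.1 hz
  refine ⟨fun e => hne (funext fun v => (hσ v).2 (e ▸ mem_univ v)), l, c, fun v => ?_, fun v => ?_⟩
  · have := h0 v; rw [h v] at this; linarith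
  · rw [← hσ v, h v]; constructor <;> intro <;> linarith

lemma aFace_of_isFace {σ : Finset V} (h : IsFace p σ) : AFace (Ls p) σ := by
  obtain ⟨hne, l, c, h1, h2⟩ := h
  refine ⟨fun v => c - l (p v), mem_Ls.2 ⟨c, l, fun _ => rfl⟩, fun v => sub_nonneg.2 (h1 v),
    fun e => hne (eq_univ_of_forall fun v => (h2 v).1 ?_), fun v hv => by
      simp [(h2 v).2 hv]⟩
  have := congrFun e v
  simp only [Pi.zero_apply] at this
  linarith

lemma aff_of (hp : IsSimplicialPolytope p) : Aff (Ls p) d where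
  one := one_mem_Ls
  rank := by
    rw [Ls, LinearMap.finrank_range_of_inj (Lam_inj hp.span)]
    simp [add_comm]
  simp := by
    classical
    rintro σ ⟨z, hz, h0, hne, hσ⟩
    have hT : IsFace p (univ.filter fun v => z v = 0) := isFace_of_zero hz h0 hne (by simp)
    refine Indep.mono (τ := univ.filter fun v => z v = 0) ?_ (fun v hv => by simp [hσ v hv])
    set T := univ.filter fun v => z v = 0
    by_contra hI
    obtain ⟨x, hx, hxT, hxL⟩ := exists_dep hI
    have hsum : ∀ f : V → ℝ, ∑ v : T, x v * f v = x ⬝ᵥ f := fun f => by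
      rw [dotProduct, ← sum_subset (subset_univ T) (fun v _ hv => by simp [hxT v hv]),
        sum_coe_sort T fun v => x v * f v]
    have := affineIndependent_iff.1 (hp.simplex T hT) univ (fun v => x v)
      (by simpa using (hsum 1).trans (hxL 1 one_mem_Ls))
      (by
        funext k
        simpa [Finset.sum_apply] using (hsum _).trans (hxL _ (coord_mem_Ls k)))
    refine hx (funext fun v => ?_)
    by_cases hv : v ∈ T
    · exact this ⟨v, hv⟩ (mem_univ _)
    · exact hxT v hv

lemma aFace_iff (hp : IsSimplicialPolytope p) {σ : Finset V} : AFace (Ls p) σ ↔ IsFace p σ := by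
  refine ⟨fun h => ?_, aFace_of_isFace⟩
  obtain ⟨z, hz, h0, hσ⟩ := (aff_of hp).exact h
  refine isFace_of_zero hz h0 (fun e => ?_) hσ
  obtain ⟨z', -, -, hne, hσ'⟩ := h
  exact hne (funext fun v => hσ' v ((hσ v).1 (by simp [e])))

lemma exists_missing {σ : Finset V} (h : ¬ IsFace p σ) : ∃ μ ⊆ σ, IsMissingFace p μ := by
  induction σ using Finset.strongInduction with
  | H σ ih =>
    by_cases h' : ∀ τ, τ ⊂ σ → IsFace p τ
    · exact ⟨σ, Subset.rfl, h, h'⟩
    · push Not at h'
      obtain ⟨τ, h1, h2⟩ := h'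
      obtain ⟨μ, h3, h4⟩ := ih τ h1 h2
      exact ⟨μ, h3.trans h1.subset, h4⟩

/-- the polynomial dual to a functional under the apolarity pairing -/
noncomputable def dualPoly (φ : S V →ₗ[ℝ] ℝ) (i : ℕ) : S V :=
  ∑ m ∈ finsuppAntidiag univ i, monomial m (φ (monomial m 1) / ∏ v, ((m v).factorial : ℝ))

lemma mem_anti {m : V →₀ ℕ} {i : ℕ} : m ∈ finsuppAntidiag univ i ↔ m.degree = i := by
  rw [mem_finsuppAntidiag, Finsupp.degree_eq_sum]; simp

lemma coeff_dualPoly (φ : S V →ₗ[ℝ] ℝ) (i : ℕ) (m : V →₀ ℕ) :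
    coeff m (dualPoly φ i) =
      if m.degree = i then φ (monomial m 1) / ∏ v, ((m v).factorial : ℝ) else 0 := by
  simp only [dualPoly, coeff_sum, coeff_monomial, sum_ite_eq', mem_anti]

lemma dualPoly_hom (φ : S V →ₗ[ℝ] ℝ) (i : ℕ) : (dualPoly φ i).IsHomogeneous i :=
  IsHomogeneous.sum _ _ _ fun _ hm => isHomogeneous_monomial _ (mem_anti.1 hm)

lemma coeff_der (φ : S V →ₗ[ℝ] ℝ) (k : ℕ) (z : V → ℝ) (m : V →₀ ℕ) :
    coeff m (∑ v, z v • pderiv v (dualPoly φ (k + 1))) =
      if m.degree = k then φ (lin z * monomial m 1) / ∏ v, ((m v).factorial : ℝ) else 0 := by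
  simp only [coeff_sum, coeff_smul, coeff_pderiv, coeff_dualPoly, map_add, Finsupp.degree_single,
    add_left_inj]
  split_ifs with h
  · rw [lin_apply, sum_mul, map_sum, sum_div]
    refine sum_congr rfl fun v _ => ?_
    have e1 : ∏ u, (((m + Finsupp.single v 1 : V →₀ ℕ) u).factorial : ℝ) =
        (m v + 1) * ∏ u, ((m u).factorial : ℝ) := by
      rw [← mul_prod_erase univ _ (mem_univ v), ← mul_prod_erase univ _ (mem_univ v), ← mul_assoc]
      congr 1
      · simp [Nat.factorial_succ]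
      · exact prod_congr rfl fun u hu => by simp [(ne_of_mem_erase hu).symm]
    have e2 : (X v : S V) * monomial m 1 = monomial (m + Finsupp.single v 1) 1 := by
      rw [X, monomial_mul, add_comm, one_mul]
    have e3 : (m v + 1 : ℝ) ≠ 0 := by positivity
    rw [e1, smul_mul_assoc, map_smul, e2]
    simp only [smul_eq_mul]
    field_simp
  · simp

lemma der_eq_zero_iff (φ : S V →ₗ[ℝ] ℝ) (k : ℕ) (z : V → ℝ) :
    ∑ v, z v • pderiv v (dualPoly φ (k + 1)) = 0 ↔ ∀ g ∈ H V k, φ (lin z * g) = 0 := by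
  constructor
  · intro h g hg
    refine H_le_of_monomial (p := LinearMap.ker (φ ∘ₗ LinearMap.mulLeft ℝ (lin z)))
      (fun m hm => ?_) hg
    have := coeff_der φ k z m
    rw [h, if_pos hm, coeff_zero, eq_comm, div_eq_zero_iff] at this
    exact this.resolve_right (by positivity)
  · intro h
    ext m
    rw [coeff_der]
    split_ifs with hm
    · simp [h _ (isHomogeneous_monomial (1 : ℝ) hm)]
    · simp

lemma monomial_eq (m : V →₀ ℕ) : ∃ j, ∃ g ∈ H V j, m.support.card + j = m.degree ∧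
    (monomial m 1 : S V) = xs m.support * g := by
  let e : V →₀ ℕ := ∑ v ∈ m.support, Finsupp.single v 1
  have he : e ≤ m := fun v => by
    simp only [e, Finsupp.finsetSum_apply, Finsupp.single_apply, sum_ite_eq']
    split_ifs with hv
    · exact Nat.pos_of_ne_zero (Finsupp.mem_support_iff.1 hv)
    · exact Nat.zero_le _
  have hx : xs m.support = (monomial e 1 : S V) := by
    simp only [xs, e, monomial_sum_one, X]
  refine ⟨(m - e).degree, monomial (m - e) 1, isHomogeneous_monomial _ rfl, ?_, ?_⟩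
  · conv_rhs => rw [← add_tsub_cancel_of_le he, map_add]
    simp [e]
  · rw [hx, monomial_mul, add_tsub_cancel_of_le he, one_mul]

lemma hyp_of (hp : IsSimplicialPolytope p) {k : ℕ} {y : V → ℝ}
    (h : ∀ u ∈ Stress p (k + 1), ∑ v, y v • pderiv v u = 0) : Hyp (Ls p) y k := by
  intro N h1 h2 f hf
  by_contra hN
  obtain ⟨φ, hφ, hφN⟩ := N.exists_le_ker_of_notMem hN
  refine hφ ((der_eq_zero_iff φ k y).1 (h _ ⟨dualPoly_hom _ _, fun m hm => ?_, ?_, fun i => ?_⟩)
    f hf)
  · by_contra hm'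
    rw [MvPolynomial.mem_support_iff, coeff_dualPoly] at hm
    split_ifs at hm with hd
    · obtain ⟨j, g, hg, e1, e2⟩ := monomial_eq m
      have := hφN (h1 _ j (mt (aFace_iff hp).1 hm') (e1.trans hd) g hg)
      rw [LinearMap.mem_ker, ← e2] at this
      simp [this] at hm
    · exact hm rfl
  · simpa using (der_eq_zero_iff φ k 1).2 fun g hg => hφN (h2 _ one_mem_Ls g hg)
  · exact (der_eq_zero_iff φ k _).2 fun g hg => hφN (h2 _ (coord_mem_Ls i) g hg)

theorem result {V : Type u} [Fintype V] [DecidableEq V] {d i : ℕ} (hi : 2 ≤ i) (hd : 2 * i ≤ d)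
    (p q : V → Fin d → ℝ) (hp : IsSimplicialPolytope p) (hq : IsSimplicialPolytope q)
    (hmiss : ∀ μ, IsMissingFace p μ → (μ.card : ℤ) - 1 < d - i + 1)
    (h : Stress p i = Stress q i) :
    ∃ A : (Fin d → ℝ) ≃ᵃ[ℝ] (Fin d → ℝ), ∀ v, A (p v) = q v := by
  obtain ⟨j, rfl⟩ : ∃ j, i = j + 2 := ⟨i - 2, by omega⟩
  obtain ⟨n, hn⟩ : ∃ n, j + 2 + n = d := ⟨d - (j + 2), by omega⟩
  have hk : ∀ k, (fun v => q v k) ∈ Ls p := fun k =>
    main_aff (aff_of hp) (fun v => aFace_of_isFace (hp.vertex v)) hn (by omega)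
      (fun σ hσ => by
        obtain ⟨μ, h1, h2⟩ := exists_missing (mt aFace_of_isFace hσ)
        have := hmiss μ h2
        exact ⟨μ, h1, mt (aFace_iff hp).1 h2.1, by omega⟩)
      (hyp_of hp fun u hu => (show u ∈ Stress q (j + 2) from h ▸ hu).2.2.2 k)
  choose c l hl using fun k => mem_Ls.1 (hk k)
  let B : (Fin d → ℝ) →ᵃ[ℝ] (Fin d → ℝ) :=
    AffineMap.const ℝ _ c - (LinearMap.pi l).toAffineMap
  have hB : ∀ v, B (p v) = q v := fun v => by
    funext k; simp [B, hl k v]
  have hs : Function.Surjective B := by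
    intro x
    have h1 := AffineSubspace.map_span B (Set.range p)
    rw [← Set.range_comp, show B ∘ p = q from funext hB, hq.span] at h1
    have hx : x ∈ (affineSpan ℝ (Set.range p)).map B := by rw [h1]; trivial
    obtain ⟨y, -, hy⟩ := hx
    exact ⟨y, hy⟩
  have hs' := B.linear_surjective_iff.2 hs
  exact ⟨AffineEquiv.ofBijective (B.linear_bijective_iff.1
    ⟨LinearMap.injective_iff_surjective.2 hs', hs'⟩), hB⟩

end Pool.Agent.Results.MP_d1780f_co.Reconstruction
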